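import Mathlib
import Pool.Agent.H72.MultipackMain

/-!
The Beaudou-Brewster-Foucaud inequality: for every finite connected simple graph the broadcast
domination number is at most twice the multipacking number. Broadcasts are bounded by the diameter
(as in the problem) or by the eccentricity of the vertex (as in the literature on broadcasts); the
two numbers obtained are equal.
-/

set_option autoImplicit false

namespace Pool.Agent.Results.MP_bcf3b3_co.BroadcastTwiceMultipacking

universe w

variable {V : Type w}

/-- The closed ball `N_r[v]` of radius `r` around the vertex `v`. -/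
def ball (G : SimpleGraph V) (r : ℕ) (v : V) : Set V := {u | G.dist u v ≤ r}

/-- `f` is a broadcast: a function from the vertices to `{0, ..., diam G}`. -/
def IsBroadcast (G : SimpleGraph V) (f : V → ℕ) : Prop := ∀ v, f v ≤ G.diam

/-- `f` is a broadcast bounded by the eccentricities: `f v` is at most the largest distance
between `v` and a vertex. -/
def IsEccBroadcast (G : SimpleGraph V) (f : V → ℕ) : Prop := ∀ v, (f v : ℕ∞) ≤ G.eccent v

/-- Every vertex `u` hears some vertex `v` with `f v > 0`, that is, lies in the ball of radius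
`f v` around it. -/
def IsDominating (G : SimpleGraph V) (f : V → ℕ) : Prop :=
  ∀ u, ∃ v, 0 < f v ∧ u ∈ ball G (f v) v

/-- The costs of the dominating broadcasts. -/
def costs [Fintype V] (G : SimpleGraph V) : Set ℕ :=
  {c | ∃ f : V → ℕ, IsBroadcast G f ∧ IsDominating G f ∧ ∑ v, f v = c}

/-- The costs of the dominating broadcasts bounded by the eccentricities. -/
def eccCosts [Fintype V] (G : SimpleGraph V) : Set ℕ :=
  {c | ∃ f : V → ℕ, IsEccBroadcast G f ∧ IsDominating G f ∧ ∑ v, f v = c}

open Classical in
/-- The broadcast domination number: the least cost of a dominating broadcast, and `1` for the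
graph with one vertex. -/
noncomputable def gammaB [Fintype V] (G : SimpleGraph V) : ℕ :=
  if Nontrivial V then sInf (costs G) else 1

open Classical in
/-- The same number with broadcasts bounded by the eccentricities. -/
noncomputable def gammaBEcc [Fintype V] (G : SimpleGraph V) : ℕ :=
  if Nontrivial V then sInf (eccCosts G) else 1

/-- `S` is a multipacking: every ball of radius `r ≥ 1` holds at most `r` elements of `S`. -/
def IsMultipacking (G : SimpleGraph V) (S : Set V) : Prop :=
  ∀ (v : V) (r : ℕ), 1 ≤ r → (ball G r v ∩ S).ncard ≤ r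

/-- The sizes of the multipackings. -/
def mpSizes (G : SimpleGraph V) : Set ℕ :=
  {m | ∃ S : Set V, IsMultipacking G S ∧ S.ncard = m}

/-- The multipacking number: the largest size of a multipacking. -/
noncomputable def mp (G : SimpleGraph V) : ℕ := sSup (mpSizes G)

theorem ediam_ne_top [Finite V] {G : SimpleGraph V} (hG : G.Connected) : G.ediam ≠ ⊤ := by
  have := hG.nonempty
  exact SimpleGraph.connected_iff_ediam_ne_top.1 hG

theorem eccent_ne_top [Finite V] {G : SimpleGraph V} (hG : G.Connected) (v : V) :
    G.eccent v ≠ ⊤ :=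
  ne_top_of_le_ne_top (ediam_ne_top hG) SimpleGraph.eccent_le_ediam

theorem dist_le_ecc [Finite V] {G : SimpleGraph V} (hG : G.Connected) (u v : V) :
    G.dist u v ≤ (G.eccent v).toNat := by
  rw [SimpleGraph.dist_comm]
  exact ENat.toNat_le_toNat SimpleGraph.edist_le_eccent (eccent_ne_top hG v)

/-- A broadcast bounded by the eccentricities is one bounded by the diameter. -/
theorem IsEccBroadcast.isBroadcast [Finite V] {G : SimpleGraph V} (hG : G.Connected)
    {f : V → ℕ} (hf : IsEccBroadcast G f) : IsBroadcast G f := by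
  intro v
  have h : (f v : ℕ∞) ≤ G.ediam := (hf v).trans SimpleGraph.eccent_le_ediam
  have := ENat.toNat_le_toNat h (ediam_ne_top hG)
  simpa [SimpleGraph.diam] using this

/-- Cutting down to the eccentricities does not cost anything. -/
theorem exists_ecc [Fintype V] [Nontrivial V] {G : SimpleGraph V} (hG : G.Connected)
    {f : V → ℕ} (hf : IsDominating G f) :
    ∃ g : V → ℕ, IsEccBroadcast G g ∧ IsDominating G g ∧ ∑ v, g v ≤ ∑ v, f v := by
  classical
  by_cases h : IsEccBroadcast G f
  · exact ⟨f, h, hf, le_rfl⟩
  · unfold IsEccBroadcast at h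
    push Not at h
    obtain ⟨v, hv⟩ := h
    set m := (G.eccent v).toNat with hm
    have hmc : (m : ℕ∞) = G.eccent v := ENat.natCast_toNat (eccent_ne_top hG v)
    have hm0 : 0 < m := by
      rw [Nat.pos_iff_ne_zero]
      intro h0
      rw [h0] at hmc
      exact SimpleGraph.eccent_ne_zero v hmc.symm
    have hmf : m ≤ f v := by
      rw [← hmc] at hv
      exact_mod_cast hv.le
    refine ⟨Pi.single v m, ?_, ?_, ?_⟩
    · intro u
      rcases eq_or_ne u v with rfl | hu
      · rw [Pi.single_eq_same, hmc]
      · rw [Pi.single_eq_of_ne hu]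
        simp
    · intro u
      refine ⟨v, ?_, ?_⟩
      · rw [Pi.single_eq_same]
        exact hm0
      · rw [Pi.single_eq_same]
        exact dist_le_ecc hG u v
    · rw [Finset.sum_pi_single' v m Finset.univ]
      simp only [Finset.mem_univ, if_true]
      exact hmf.trans (Finset.single_le_sum (f := f) (fun _ _ => Nat.zero_le _)
        (Finset.mem_univ v))

/-- The inequality in the form of the existence of a pair, over any universe. -/
theorem exists_pair [Fintype V] {G : SimpleGraph V} (hG : G.Connected) :
    ∃ (f : V → ℕ) (S : Set V), IsDominating G f ∧ IsMultipacking G S ∧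
      ∑ v, f v ≤ 2 * S.ncard := by
  classical
  have hne : Nonempty V := hG.nonempty
  let e : V ≃ Fin (Fintype.card V) := Fintype.equivFin V
  have hne' : Nonempty (Fin (Fintype.card V)) := hne.map e
  have hd : Pool.Agent.H72.MPk.GM (fun i j => G.dist (e.symm i) (e.symm j)) := by
    refine ⟨fun v => SimpleGraph.dist_self, fun u v => SimpleGraph.dist_comm,
      fun u v w => hG.dist_triangle, ?_⟩
    intro x y
    obtain ⟨p, hp⟩ := hG.exists_walk_length_eq_dist (e.symm x) (e.symm y)
    refine ⟨fun i => e (p.getVert i), by simp [p.getVert_zero], ?_, ?_⟩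
    · simp only
      rw [← hp, p.getVert_length, Equiv.apply_symm_apply]
    · intro i
      simp only [Equiv.symm_apply_apply]
      rcases Nat.lt_or_ge i p.length with hi | hi
      · have := SimpleGraph.dist_eq_one_iff_adj.2 (p.adj_getVert_succ hi)
        omega
      · rw [p.getVert_of_length_le hi, p.getVert_of_length_le (by omega), SimpleGraph.dist_self]
        omega
  obtain ⟨f, S, hf, hS, hfS⟩ := Pool.Agent.H72.MPk.main hd
  refine ⟨fun v => f (e v), {v | e v ∈ S}, ?_, ?_, ?_⟩
  · intro u
    obtain ⟨v, hv0, hv⟩ := hf (e u)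
    refine ⟨e.symm v, by simpa using hv0, ?_⟩
    simpa [ball] using hv
  · intro v r hr
    have h := hS (e v) r hr
    have hEq : (ball G r v ∩ {v | e v ∈ S}) =
        e.symm '' ((S.filter (fun u => G.dist (e.symm (e v)) (e.symm u) ≤ r) :
          Finset (Fin (Fintype.card V))) : Set (Fin (Fintype.card V))) := by
      ext x
      simp only [ball, Set.mem_inter_iff, Set.mem_ofPred_eq, Finset.coe_filter,
        Equiv.symm_apply_apply, Set.mem_image]
      constructor
      · rintro ⟨h1, h2⟩
        refine ⟨e x, ⟨h2, ?_⟩, e.symm_apply_apply x⟩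
        rw [Equiv.symm_apply_apply, SimpleGraph.dist_comm]
        exact h1
      · rintro ⟨y, ⟨hy, hyr⟩, rfl⟩
        refine ⟨?_, by simpa using hy⟩
        rw [SimpleGraph.dist_comm]
        exact hyr
    rw [hEq, Set.ncard_image_of_injective _ e.symm.injective, Set.ncard_coe_finset]
    exact h
  · have h1 : ∑ v, f (e v) = ∑ i, f i := Equiv.sum_comp e f
    have h2 : ({v | e v ∈ S} : Set V).ncard = S.card := by
      have : ({v | e v ∈ S} : Set V) = e.symm '' (S : Set (Fin (Fintype.card V))) := by
        ext x
        simp only [Set.mem_ofPred_eq, Set.mem_image, Finset.mem_coe]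
        constructor
        · intro h
          exact ⟨e x, h, e.symm_apply_apply x⟩
        · rintro ⟨y, hy, rfl⟩
          simpa using hy
      rw [this, Set.ncard_image_of_injective _ e.symm.injective, Set.ncard_coe_finset]
    rw [h1, h2]
    exact hfS

/-- Full answer to Q1. -/
theorem result :
    ∀ (V : Type w) [Fintype V] (G : SimpleGraph V), G.Connected →
      gammaB G ≤ 2 * mp G ∧
      gammaBEcc G = gammaB G ∧
      IsGreatest (mpSizes G) (mp G) ∧
      (Nontrivial V → IsLeast (costs G) (gammaB G) ∧ IsLeast (eccCosts G) (gammaBEcc G)) := by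
  intro V _ G hG
  classical
  have hne : Nonempty V := hG.nonempty
  -- the multipacking number is attained
  have hmpne : (mpSizes G).Nonempty :=
    ⟨0, ∅, fun v r _ => by simp, by simp⟩
  have hmpbd : BddAbove (mpSizes G) := by
    refine ⟨Nat.card V, ?_⟩
    rintro m ⟨S, _, rfl⟩
    exact Set.ncard_le_card S
  have hgr : IsGreatest (mpSizes G) (mp G) :=
    ⟨Nat.sSup_mem hmpne hmpbd, fun m hm => le_csSup hmpbd hm⟩
  by_cases hnt : Nontrivial V
  · obtain ⟨f, S, hf, hS, hfS⟩ := exists_pair hG
    have hSm : S.ncard ≤ mp G := hgr.2 ⟨S, hS, rfl⟩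
    obtain ⟨g, hg, hgd, hgs⟩ := exists_ecc hG hf
    have hgB : IsBroadcast G g := hg.isBroadcast hG
    have hc : (costs G).Nonempty := ⟨_, g, hgB, hgd, rfl⟩
    have hce : (eccCosts G).Nonempty := ⟨_, g, hg, hgd, rfl⟩
    have hB : gammaB G = sInf (costs G) := if_pos hnt
    have hBe : gammaBEcc G = sInf (eccCosts G) := if_pos hnt
    have hl : IsLeast (costs G) (gammaB G) := by
      rw [hB]
      exact ⟨Nat.sInf_mem hc, fun c hc => Nat.sInf_le hc⟩
    have hle : IsLeast (eccCosts G) (gammaBEcc G) := by
      rw [hBe]
      exact ⟨Nat.sInf_mem hce, fun c hc => Nat.sInf_le hc⟩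
    refine ⟨?_, ?_, hgr, fun _ => ⟨hl, hle⟩⟩
    · have : gammaB G ≤ ∑ v, g v := hl.2 ⟨g, hgB, hgd, rfl⟩
      omega
    · apply le_antisymm
      · obtain ⟨f', -, hf'd, hf's⟩ := hl.1
        obtain ⟨g', hg', hg'd, hg's⟩ := exists_ecc hG hf'd
        have : gammaBEcc G ≤ ∑ v, g' v := hle.2 ⟨g', hg', hg'd, rfl⟩
        omega
      · obtain ⟨g', hg', hg'd, hg's⟩ := hle.1
        exact hl.2 ⟨g', hg'.isBroadcast hG, hg'd, hg's⟩
  · have hB : gammaB G = 1 := if_neg hnt
    have hBe : gammaBEcc G = 1 := if_neg hnt
    have hsub : Subsingleton V := not_nontrivial_iff_subsingleton.1 hnt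
    obtain ⟨v0⟩ := hne
    have h1 : 1 ≤ mp G := by
      apply hgr.2
      refine ⟨{v0}, ?_, Set.ncard_singleton v0⟩
      intro v r hr
      calc (ball G r v ∩ {v0}).ncard ≤ ({v0} : Set V).ncard :=
            Set.ncard_le_ncard Set.inter_subset_right
        _ = 1 := Set.ncard_singleton v0
        _ ≤ r := hr
    refine ⟨by omega, by rw [hB, hBe], hgr, fun h => absurd h hnt⟩

end Pool.Agent.Results.MP_bcf3b3_co.BroadcastTwiceMultipacking
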